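import Mathlib
import Pool.Agent.Work.MP_8d2b2d_co.RP.Final

/-!
# Pate's inequality for `k = 3` and every order `m`
-/

set_option autoImplicit false

namespace Pool.Agent.Results.MP_8d2b2d_co.PateCube

open scoped ComplexOrder

/-- **Pate's inequality for `k = 3`**: for every positive semidefinite complex `m × m` matrix `M`,
`(3!)^m (per M)^3 ≤ per (J_3 ⊗ M)`, where `J_3` is the `3 × 3` matrix of ones. -/
theorem result :
    ∀ (m : ℕ) (M : Matrix (Fin m) (Fin m) ℂ), M.PosSemidef →
      ((Nat.factorial 3 : ℕ) : ℂ) ^ m * M.permanent ^ 3 ≤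
        (Matrix.kroneckerMap (fun x y => x * y)
          (Matrix.of fun _ _ : Fin 3 => (1 : ℂ)) M).permanent :=
  fun m M hM => Pool.Agent.Work.MP_8d2b2d_co.RP.pate_three_all m M hM

end Pool.Agent.Results.MP_8d2b2d_co.PateCube
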