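import Mathlib
import Pool.Agent.Work.MP_8d2b2d_co.PL.FinC

/-!
# Pate's inequality for every order `m` and all large `k`
-/

set_option autoImplicit false

namespace Pool.Agent.Results.MP_8d2b2d_co.PateEventually

open scoped ComplexOrder

open Pool.Agent.Work.MP_8d2b2d_co Pool.Agent.Work.MP_8d2b2d_co.PL in
/-- For every order `m` there is a `k₀`, depending only on `m`, such that for all `k ≥ k₀` and
every positive semidefinite complex `m × m` matrix `M`,
`(k!)^m (per M)^k ≤ per (J_k ⊗ M)`, where `J_k` is the `k × k` matrix of ones. -/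
theorem result :
    ∀ m : ℕ, ∃ k₀ : ℕ, ∀ k : ℕ, k₀ ≤ k → ∀ M : Matrix (Fin m) (Fin m) ℂ, M.PosSemidef →
      (k.factorial : ℂ) ^ m * M.permanent ^ k ≤
        (Matrix.kroneckerMap (fun x y => x * y)
          (Matrix.of fun _ _ : Fin k => (1 : ℂ)) M).permanent := by
  intro m
  obtain ⟨k₀, h⟩ := eventually_re m
  refine ⟨k₀, fun k hk M hM => ?_⟩
  have h1 := h k hk M hM
  have h2 : (Matrix.kroneckerMap (fun x y => x * y)
            (Matrix.of fun _ _ : Fin k => (1 : ℂ)) M) = JM k M := rfl
  rw [h2, perm_ofReal hM, perm_JM_ofReal hM k]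
  exact_mod_cast h1

end Pool.Agent.Results.MP_8d2b2d_co.PateEventually
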