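import Mathlib
import Pool.Agent.Work.MP_8d2b2d_co.PL.Mat

/-!
# Pate's inequality with a polynomial loss
-/

set_option autoImplicit false

namespace Pool.Agent.Results.MP_8d2b2d_co.PatePolyLoss

open scoped ComplexOrder

open Pool.Agent.Work.MP_8d2b2d_co Pool.Agent.Work.MP_8d2b2d_co.PL in
/-- For every positive semidefinite complex `m × m` matrix `M` and every `k`,
`(mk)! (per M)^k ≤ m^(mk) per (J_k ⊗ M)`, where `J_k` is the `k × k` matrix of ones. -/
theorem result :
    ∀ (m k : ℕ) (M : Matrix (Fin m) (Fin m) ℂ), M.PosSemidef →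
      ((m * k).factorial : ℂ) * M.permanent ^ k ≤
        (m : ℂ) ^ (m * k) *
          (Matrix.kroneckerMap (fun x y => x * y)
            (Matrix.of fun _ _ : Fin k => (1 : ℂ)) M).permanent := by
  intro m k M hM
  have h := polyLoss_re hM k
  have h2 : (Matrix.kroneckerMap (fun x y => x * y)
            (Matrix.of fun _ _ : Fin k => (1 : ℂ)) M) = JM k M := rfl
  rw [h2, perm_ofReal hM, perm_JM_ofReal hM k]
  exact_mod_cast h

end Pool.Agent.Results.MP_8d2b2d_co.PatePolyLoss
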