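import Mathlib
import Pool.Agent.Work.MP_8d2b2d_co.CY.Final

/-!
# Pate's inequality for all orders `m ≤ 7` and all `k`
-/

set_option autoImplicit false

namespace Pool.Agent.Results.MP_8d2b2d_co.PateSeven

open scoped ComplexOrder

open Pool.Agent.Work.MP_8d2b2d_co Pool.Agent.Work.MP_8d2b2d_co.PL
  Pool.Agent.Work.MP_8d2b2d_co.CY in
/-- Let `m ≤ 7` and let `M` be a positive semidefinite complex `m × m` matrix. With `J_k` the
`k × k` matrix of ones,
(1) `(k!)^m (per M)^k ≤ per (J_k ⊗ M)` for every `k`;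
(2) the numbers `G(k) = per (J_k ⊗ M) / (k!)^m` satisfy `∑_{i,j<N} c_i c_j G(i+j+s) ≥ 0` for all
`N`, `s` and real `c`, i.e. all Hankel matrices of `G` and of its shifts are positive
semidefinite (`G` is a Stieltjes moment sequence). -/
theorem result :
    ∀ m : ℕ, m ≤ 7 → ∀ M : Matrix (Fin m) (Fin m) ℂ, M.PosSemidef →
      (∀ k : ℕ, (k.factorial : ℂ) ^ m * M.permanent ^ k ≤
        (Matrix.kroneckerMap (fun x y => x * y)
          (Matrix.of fun _ _ : Fin k => (1 : ℂ)) M).permanent) ∧
      (∀ (s N : ℕ) (c : ℕ → ℝ), (0 : ℂ) ≤ ∑ i ∈ Finset.range N, ∑ j ∈ Finset.range N,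
        (c i : ℂ) * (c j : ℂ) *
          ((Matrix.kroneckerMap (fun x y => x * y)
            (Matrix.of fun _ _ : Fin (i + j + s) => (1 : ℂ)) M).permanent /
              ((i + j + s).factorial : ℂ) ^ m)) := by
  intro m hm M hM
  constructor
  · intro k
    have h1 := pate_seven hm hM k
    have h2 : (Matrix.kroneckerMap (fun x y => x * y)
              (Matrix.of fun _ _ : Fin k => (1 : ℂ)) M) = JM k M := rfl
    rw [h2, perm_ofReal hM, perm_JM_ofReal hM k]
    exact_mod_cast h1
  · intro s N c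
    have h1 := hankel_psd hm hM s N c
    have h2 : ∑ i ∈ Finset.range N, ∑ j ∈ Finset.range N, (c i : ℂ) * (c j : ℂ) *
          ((Matrix.kroneckerMap (fun x y => x * y)
            (Matrix.of fun _ _ : Fin (i + j + s) => (1 : ℂ)) M).permanent /
              ((i + j + s).factorial : ℂ) ^ m) =
        ((∑ i ∈ Finset.range N, ∑ j ∈ Finset.range N, c i * c j * gk M (i + j + s) : ℝ) : ℂ) := by
      push_cast
      refine Finset.sum_congr rfl fun i _ => Finset.sum_congr rfl fun j _ => ?_
      have h3 : (Matrix.kroneckerMap (fun x y => x * y)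
            (Matrix.of fun _ _ : Fin (i + j + s) => (1 : ℂ)) M) = JM (i + j + s) M := rfl
      rw [h3, perm_JM_ofReal hM, gk]
      push_cast
      rfl
    rw [h2]
    exact_mod_cast h1

end Pool.Agent.Results.MP_8d2b2d_co.PateSeven
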